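import Pool.Agent.V11290.FD.Pairs

/-!
# Prime pairs in progressions, uniformly in the modulus, for all differences near `t α + s`, for almost every `α` of a
set of positive Fourier dimension

Let `μ` be ANY compactly supported probability measure on the line whose Fourier transform decays like some power, with an
arbitrarily small exponent `σ > 0`. (Such measures live on many sets of Lebesgue measure zero and of arbitrarily small
dimension: on the badly approximable numbers with bounded partial quotients (Kaufman), on the sets of `τ`-well approximable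
numbers (Kaufman), on limit sets of convex cocompact Fuchsian groups (Bourgain, Dyatlov), on random Salem sets, ...). For
almost every `α` ALL even differences `d > 0` near `t j α + s j` satisfy the estimate of the problem up to
`X = ⌈t j⌉ ⌈log (t j)⌉ ^ W`, uniformly in the modulus.

Proof: the law of a random rounding of `t α` is approximated by a finite family of integers (with multiplicities); its
additive energy of order `p ≥ 1 / σ` is nearly minimal since the characteristic function of the rounding is small away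
from the integers (a Fourier series with the coefficients `sinc²`). The theorem of the library TH935.DF on thin families
of differences (starting files) is applied to these families, the result is carried back to the measure, and then the
lemma of Borel and Cantelli is applied.

Definition used: `Pool.Agent.H560R3.GB.C₂`, the twin prime constant `∏_{p > 2} (1 - 1 / (p - 1) ^ 2)` (the infimum of the
partial products).
-/

set_option autoImplicit false

namespace Pool.Agent.Results.MP_92ef0c_nt.FourierDecay

open Finset MeasureTheory Pool.Agent.H560R3.GB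

open Classical in
/-- `π_d(x; a, q)`: the number of primes `p ≤ x` with `p + d ≤ x` prime and `p ≡ a (mod q)`. (For even
`d > 0` such a prime `p` is automatically odd.) -/
noncomputable def pairs (d : ℕ) (x : ℝ) (a q : ℕ) : ℕ :=
  ((range (⌊x⌋₊ + 1)).filter (fun p => p.Prime ∧ (p + d).Prime ∧ (p : ℝ) + d ≤ x ∧ p ≡ a [MOD q])).card

/-- The main term `M_d(x; q)` of the problem. -/
noncomputable def main (d : ℕ) (x : ℝ) (q : ℕ) : ℝ :=
  2 / (((range q).filter (fun α => Nat.Coprime α q ∧ Nat.Coprime (α + d) q)).card : ℝ) *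
    (∏ p ∈ d.primeFactors.filter (fun p => 2 < p), ((p : ℝ) - 1) / ((p : ℝ) - 2)) * C₂ *
    ∫ t in (2 : ℝ)..x, 1 / Real.log t ^ 2

/-- The estimate of the problem for the difference `d` with the bound `X / (log X) ^ C`, for all `x ≤ X`, all moduli
`q ≤ (log X) ^ B` and all admissible classes `a`. -/
def Holds (B C X d : ℕ) : Prop :=
  ∀ q a : ℕ, 1 ≤ q → (q : ℝ) ≤ Real.log X ^ B → Nat.Coprime a q → Nat.Coprime (a + d) q → ∀ x : ℝ, 2 ≤ x → x ≤ X →
    |(pairs d x a q : ℝ) - main d x q| ≤ X / Real.log X ^ C

lemma holds_of (B C X d : ℕ) (h0 : 0 < d) (h2 : Even d) (hgood : Pool.Agent.W93.PP.GoodD 0 B C X d) : Holds B C X d := by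
  intro q a hq1 hq2 ha had x hx2 hxX
  have h3 := hgood 0 q a (by simp) hq1 hq2 ha (by rw [add_zero]; exact had) (by rw [add_zero]; exact h2.two_dvd)
    (by rw [add_zero]; exact h0.ne') x hx2 hxX
  rw [add_zero] at h3
  have e1 : main d x q = sing d / Pool.Agent.W93.PP.Cnt q d * Pool.Agent.W93.PP.Li2 x := by
    unfold main sing Pool.Agent.W93.PP.Cnt Pool.Agent.W93.PP.Li2
    ring
  rw [e1]
  exact h3

/-- Let `μ` be a probability measure on `[-B, B]` with `|μ^(ξ)| ≤ C |ξ| ^ (-σ)` for `|ξ| ≥ 1` and some `C` and `σ > 0`.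
Let `t j ≥ 2` and `|s j| ≤ B t j` be real numbers, where `j` ranges over a set `J`, such that the sum of the
`1 / log ^ V (t j)` converges for some `V`. Then for `μ`-almost every `α`, for all `A`, `B'`, `C'` and `W ≥ C' + 7` and for
all but finitely many `j`: ALL even integers `d > 0` with `|d - (t j α + s j)| ≤ log ^ A (t j)` satisfy the estimate of the
problem with `X = ⌈t j⌉ ⌈log (t j)⌉ ^ W`: for all `x ≤ X`, all `q ≤ (log X) ^ B'` and all `a` with
`(a, q) = (a + d, q) = 1`, `|π_d(x; a, q) - M_d(x; q)| ≤ X / (log X) ^ C'`. -/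
theorem result (μ : Measure ℝ) [IsProbabilityMeasure μ] (B : ℝ) (hμ : ∀ᵐ α ∂μ, |α| ≤ B)
    (C σ : ℝ) (hσ : 0 < σ) (hdec : ∀ ξ : ℝ, 1 ≤ |ξ| → ‖charFun μ ξ‖ ≤ C * |ξ| ^ (-σ))
    (J : Type) (t s : J → ℝ) (ht : ∀ j, 2 ≤ t j) (hs : ∀ j, |s j| ≤ B * t j)
    (hsum : ∃ V : ℕ, Summable fun j => 1 / Real.log (t j) ^ V) :
    ∀ᵐ α ∂μ, ∀ A B' C' W : ℕ, C' + 7 ≤ W →
      {j | ¬ ∀ d : ℕ, 0 < d → Even d → |(d : ℝ) - (t j * α + s j)| ≤ Real.log (t j) ^ A →
        Holds B' C' (⌈t j⌉₊ * ⌈Real.log (t j)⌉₊ ^ W) d}.Finite := by
  obtain ⟨V, hV⟩ := hsum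
  have h := Pool.Agent.V11290.FD.pairs_ae μ B hμ C σ hσ hdec J t s ht hs V hV
  filter_upwards [h] with α hα A B' C' W hCW
  refine (hα A B' C' W hCW).subset ?_
  intro j hj
  rw [Set.mem_ofPred_eq] at hj ⊢
  intro hall
  apply hj
  intro d h0 h2 hd
  exact holds_of _ _ _ d h0 h2 (hall d hd)

end Pool.Agent.Results.MP_92ef0c_nt.FourierDecay
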