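import Pool.Agent.Y879.AP.Pair2
import Pool.Agent.V11237.LP.Short

set_option autoImplicit false

/-!
# Almost prime pairs with difference `d` in the residue classes modulo `q`: the law over the classes

Let `d` be even and `d < q ≤ X ^ A`. For a class `n` with `n` and `n + d` prime to `q` consider the pairs
`n + q h`, `n + q h + d`, `1 ≤ h ≤ T`, without prime factor `≤ X ^ (1 / r)`. If `n` runs over ANY interval
`(Z, Z + Y]` with `Y ≥ X ^ θ` (which may be much shorter than `q`), their number has the Poisson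
distribution with the mean value `T V`, up to an error `ε`, uniformly in `d` and `q`.
-/

namespace Pool.Agent.Results.MP_92ef0c_nt.LawOverClasses

open Finset Filter

/-- Neither `m` nor `m + d` has a prime factor `p ≤ X ^ (1 / r)`. -/
def Good (d X r m : ℕ) : Prop :=
  ∀ p : ℕ, p.Prime → (p : ℝ) ≤ (X : ℝ) ^ (1 / (r : ℝ)) → ¬ p ∣ m ∧ ¬ p ∣ m + d

open Classical in
/-- The number of the `1 ≤ h ≤ T` for which `n + q h` is good. -/
noncomputable def W (d q X r T n : ℕ) : ℕ := ((Icc 1 T).filter (fun h => Good d X r (n + q * h))).card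

open Classical in
/-- The density: the product over the primes `p ≤ X ^ (1 / r)` which do not divide `q` of `1 - 1 / p` if
`p` divides `d` and of `1 - 2 / p` otherwise. -/
noncomputable def V (d q X r : ℕ) : ℝ :=
  ∏ p ∈ (Icc 1 ⌊(X : ℝ) ^ (1 / (r : ℝ))⌋₊).filter (fun p => p.Prime ∧ ¬ p ∣ q),
    (1 - (if p ∣ d then 1 else 2) / (p : ℝ))

/-- The proportion of the classes `n` modulo `q` for which `n` and `n + d` are prime to `q`: the product
over the prime divisors `p` of `q` of `1 - 1 / p` if `p` divides `d` and of `1 - 2 / p` otherwise. -/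
noncomputable def D (d q : ℕ) : ℝ := ∏ p ∈ q.primeFactors, (1 - (if p ∣ d then 1 else 2) / (p : ℝ))

open Pool.Agent.W123.RP Pool.Agent.H373R2.T7 Pool.Agent.W123.RU Pool.Agent.W123.RU.Poly
open Pool.Agent.TH464.PW Pool.Agent.TH464.PO Pool.Agent.Y879.AP Pool.Agent.Y879.GL

lemma q2_iff (d p m : ℕ) (hp : p.Prime) : Q2 1 (d : ℤ) p m ↔ (p ∣ m ∨ p ∣ m + d) := by
  unfold Q2
  rw [(Nat.prime_iff_prime_int.1 hp).dvd_mul, one_mul, Int.natCast_dvd_natCast]
  apply or_congr Iff.rfl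
  constructor
  · intro h
    exact_mod_cast h
  · intro h
    exact_mod_cast h

lemma good_iff (d X r m : ℕ) :
    Sf (Q2 1 (d : ℤ)) ⌊(X : ℝ) ^ (1 / (r : ℝ))⌋₊ m ↔ Good d X r m := by
  have h0 : (0 : ℝ) ≤ (X : ℝ) ^ (1 / (r : ℝ)) := by positivity
  constructor
  · intro h p hp hpX
    have h1 := h p (mem_pz.2 ⟨Nat.le_floor hpX, hp⟩)
    rwa [q2_iff d p m hp, not_or] at h1
  · intro h p hp
    obtain ⟨h1, h2⟩ := mem_pz.1 hp
    rw [q2_iff d p m h2, not_or]
    exact h p h2 ((Nat.le_floor_iff h0).1 h1)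

lemma red_iff (d q n : ℕ) : Red (Q2 1 (d : ℤ)) q n ↔ (n.Coprime q ∧ (n + d).Coprime q) := by
  unfold Red
  constructor
  · intro h
    constructor
    · apply Nat.coprime_of_dvd
      intro p hp h1 h2
      exact h p hp h2 ((q2_iff d p n hp).2 (Or.inl h1))
    · apply Nat.coprime_of_dvd
      intro p hp h1 h2
      exact h p hp h2 ((q2_iff d p n hp).2 (Or.inr h1))
  · rintro ⟨h1, h2⟩ p hp hpq hQ
    rcases (q2_iff d p n hp).1 hQ with h3 | h3
    · have h4 := Nat.dvd_gcd h3 hpq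
      rw [h1] at h4
      exact hp.one_lt.ne' (Nat.dvd_one.1 h4)
    · have h4 := Nat.dvd_gcd h3 hpq
      rw [h2] at h4
      exact hp.one_lt.ne' (Nat.dvd_one.1 h4)

lemma nu_eq (d p : ℕ) (hp : p.Prime) : (nuB (Q2 1 (d : ℤ)) p : ℝ) = if p ∣ d then 1 else 2 := by
  rw [nuB_Q2 _ _ (by norm_num) _ hp]
  unfold nu2
  simp only [Int.natCast_dvd_natCast]
  split_ifs <;> norm_num

lemma V_eq (d q X r : ℕ) :
    Vq (Qn (Q2 1 (d : ℤ)) q) ⌊(X : ℝ) ^ (1 / (r : ℝ))⌋₊ = V d q X r := by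
  classical
  unfold Vq V pz
  rw [show (Icc 1 ⌊(X : ℝ) ^ (1 / (r : ℝ))⌋₊).filter (fun p => p.Prime ∧ ¬ p ∣ q) =
    ((Icc 1 ⌊(X : ℝ) ^ (1 / (r : ℝ))⌋₊).filter Nat.Prime).filter (fun p => ¬ p ∣ q) by
      rw [Finset.filter_filter]]
  conv_rhs => rw [Finset.prod_filter]
  apply Finset.prod_congr rfl
  intro p hp
  have hpp : p.Prime := (mem_filter.1 hp).2
  by_cases h : p ∣ q
  · rw [nuB_Qn_dvd _ _ _ h, if_neg (not_not.2 h)]
    simp
  · rw [nuB_Qn_not _ _ _ h, if_pos h, nu_eq d p hpp]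

lemma D_eq (d q : ℕ) : RD (Q2 1 (d : ℤ)) q = D d q := by
  unfold RD D
  apply Finset.prod_congr rfl
  intro p hp
  rw [nu_eq d p (Nat.prime_of_mem_primeFactors hp)]

/-- **The law over the classes.** -/
theorem result (A θ x₀ ε : ℝ) (hA : 0 < A) (hθ : 0 < θ) (hε : 0 < ε) :
    ∃ r₀ : ℕ, 2 ≤ r₀ ∧ ∀ r : ℕ, r₀ ≤ r → ∃ X₀ : ℕ, ∀ X : ℕ, X₀ ≤ X → ∀ d q : ℕ, Even d → 1 ≤ d →
      d < q → (q : ℝ) ≤ (X : ℝ) ^ A →
      (∀ b m : ℕ, 1 ≤ m → m + d ≤ X ^ b → Good d X r m →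
        m.primeFactorsList.length ≤ b * r ∧ (m + d).primeFactorsList.length ≤ b * r) ∧
      ∀ Z Y : ℕ, (X : ℝ) ^ θ ≤ Y →
      ∀ T : ℕ, T * V d q X r ≤ x₀ → ∀ S : Finset ℕ,
        |(((Ioc Z (Z + Y)).filter (fun n => (n.Coprime q ∧ (n + d).Coprime q) ∧
          W d q X r T n ∈ S)).card : ℝ) -
          Y * D d q * ∑ j ∈ S, Real.exp (-(T * V d q X r)) * (T * V d q X r) ^ j / j.factorial| ≤
          ε * (Y * D d q) := by
  classical
  obtain ⟨r0, hr0, h0⟩ := pair_law A 1 θ x₀ ε hA one_pos hθ hε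
  refine ⟨r0, hr0, ?_⟩
  intro r hr
  obtain ⟨X0, hX0⟩ := eventually_atTop.1 (h0 r hr)
  refine ⟨max X0 2, ?_⟩
  intro X hX' d q hd hd1 hdq hqX
  have hX : X0 ≤ X := (le_max_left _ _).trans hX'
  have hX2 : 2 ≤ X := (le_max_right _ _).trans hX'
  refine ⟨fun b m hm hmb hg => ⟨?_, ?_⟩, ?_⟩
  · exact Pool.Agent.V11237.LP.Short.few (by omega) hX2 (by omega) (by omega)
      (fun p hp hpX => (hg p hp hpX).1)
  · exact Pool.Agent.V11237.LP.Short.few (by omega) hX2 (by omega) hmb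
      (fun p hp hpX => (hg p hp hpX).2)
  intro Z Y hY T hT S
  have hdX : |(((d : ℕ) : ℤ) : ℝ)| ≤ (X : ℝ) ^ A := by
    rw [Int.cast_natCast, abs_of_nonneg (Nat.cast_nonneg _)]
    have : (d : ℝ) ≤ q := by exact_mod_cast hdq.le
    linarith
  have h := hX0 X hX 1 (d : ℤ) q (by norm_num) ((Int.even_coe_nat d).2 hd)
    (by exact_mod_cast (by omega : d ≠ 0)) hdX (by omega) hqX (by
      intro t ht _ hcon
      have h1 : (d : ℤ) < q * t := by
        have h2 : (d : ℤ) < q := by exact_mod_cast hdq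
        have h3 : (1 : ℤ) ≤ t := by exact_mod_cast ht
        have h4 : (0 : ℤ) ≤ q := by positivity
        nlinarith
      have h5 : (0 : ℤ) ≤ d := by positivity
      nlinarith) Z Y hY T (by rw [V_eq]; exact hT) S
  have hW : ∀ n, Ws (Q2 1 (d : ℤ)) q ⌊(X : ℝ) ^ (1 / (r : ℝ))⌋₊ T n = W d q X r T n := by
    intro n
    unfold Ws W
    simp only [good_iff]
  simp only [hW, red_iff, V_eq, D_eq] at h
  exact h

end Pool.Agent.Results.MP_92ef0c_nt.LawOverClasses
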