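import Pool.Agent.H225.LF2

/-!
# Pairs `p`, `p + d` in all residue classes, uniformly in `q` and `d`, in sparse sets given by digits

Let `b ≥ 2` be a base, `q, a, d ≤ b^{EK}` ANY positive integers with `d` even and
`(a, q) = (a + d, q) = 1`.  Write `p = a + q m`, `m = M + t` with an arbitrary base point `M ≤ b^{EK}` and
let the digits of `t < b^K` be restricted: the `i`-th digit belongs to a set `A i`, where the sets `A i`
are arbitrary, depend on the place `i < K`, and have the only property that the number `∏ |A i|` of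
these `m` is at least `e^{-δK} b^K`, where the constant `δ > 0` does not depend on `b`.

Let `𝔖` be the singular series of the pair `a + q m`, `a + q m + d` (it is `q` times the constant factor
of the main term `M_d(x; q)` of the problem).  Then the number of these `m` such that `p` and `p + d` are
primes is at most `C 𝔖 ∏ |A i| / K^2`, and (if the last digit can be chosen such that both are prime to
`b`) at least `κ 𝔖 ∏ |A i| / K^2` of the `m` are such that `p` and `p + d` have at most `r` prime factors,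
all larger than `b^{K/r}`.  The constants do not depend on `q`, `a` and `d`.
-/

set_option autoImplicit false

namespace Pool.Agent.Results.MP_92ef0c_nt.RestrictedDigits

open Finset Filter

open Classical in
/-- The number of the `m` modulo `l` with `(a + q m) (a + q m + d) ≡ 0`. -/
noncomputable def w (d a q l : ℕ) : ℕ :=
  ((range l).filter (fun m => l ∣ (a + q * m) * (a + q * m + d))).card

/-- The singular series `∏_l (1 - w(l)/l) / (1 - 1/l)^2`, over the primes `l`. -/
noncomputable def sing (d a q : ℕ) : ℝ :=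
  ∏' l : Nat.Primes, (1 - (w d a q l : ℝ) / ((l : ℕ) : ℝ)) / (1 - 1 / ((l : ℕ) : ℝ)) ^ 2

open Classical in
/-- The number of the `t < b ^ K`, whose `i`-th digit in base `b` belongs to `A i` for all `i < K`, such
that `M + t` belongs to `T`. -/
noncomputable def count (b K M : ℕ) (A : ℕ → Finset ℕ) (T : Set ℕ) : ℕ :=
  ((range (b ^ K)).filter (fun t => (∀ i < K, t / b ^ i % b ∈ A i) ∧ M + t ∈ T)).card

/-- The number of choices of the digits. -/
noncomputable def choices (K : ℕ) (A : ℕ → Finset ℕ) : ℝ := ∏ i ∈ range K, ((A i).card : ℝ)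

/-- `m` has at most `r` prime factors, counted with multiplicity, and all of them are larger than
`z ^ (1 / r)`. -/
def AlmostPrime (r z m : ℕ) : Prop :=
  (∀ p : ℕ, p.Prime → p ∣ m → z < p ^ r) ∧ m.primeFactorsList.length ≤ r

open Pool.Agent.Y816.PD (ND ND_sub)
open Pool.Agent.H225.LF (sg loc rt Adm lf exists_root)

/-- the coefficients -/
def al (q : ℕ) : Fin 2 → ℤ := fun _ => q

/-- the constant terms -/
def be (d a : ℕ) : Fin 2 → ℤ := ![(a : ℤ), ((a + d : ℕ) : ℤ)]

lemma val_eq (d a q m : ℕ) (i : Fin 2) :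
    al q i * (m : ℤ) + be d a i = ((![a + q * m, a + q * m + d] i : ℕ) : ℤ) := by
  fin_cases i
  · change (q : ℤ) * m + a = ((a + q * m : ℕ) : ℤ)
    push_cast
    ring
  · change (q : ℤ) * m + ((a + d : ℕ) : ℤ) = ((a + q * m + d : ℕ) : ℤ)
    push_cast
    ring

lemma w_eq (d a q : ℕ) {l : ℕ} (hl : l.Prime) : rt (al q) (be d a) l = w d a q l := by
  classical
  unfold rt w
  congr 1
  refine filter_congr fun m _ => ?_
  rw [Nat.Prime.dvd_mul hl, Fin.exists_fin_two, val_eq, val_eq, Int.natCast_dvd_natCast,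
    Int.natCast_dvd_natCast]
  rfl

lemma sing_eq (d a q : ℕ) : sg 2 (rt (al q) (be d a)) = sing d a q := by
  unfold sg sing loc
  refine tprod_congr fun p => ?_
  rw [w_eq d a q p.2, inv_pow, mul_comm, ← div_eq_mul_inv]

lemma adm {d a q : ℕ} (hd : Even d) (h1 : a.Coprime q) (h2 : (a + d).Coprime q) :
    Adm (al q) (be d a) := by
  intro p hp
  have hpi : Prime (p : ℤ) := Nat.prime_iff_prime_int.1 hp
  have hp1 : ¬ (p : ℤ) ∣ 1 := fun h => hpi.not_isUnit (isUnit_of_dvd_one h)
  by_cases hq : p ∣ q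
  · refine ⟨0, fun i hi => ?_⟩
    rw [val_eq, Int.natCast_dvd_natCast] at hi
    fin_cases i
    · have h3 : p ∣ a := by simpa using hi
      exact hp.one_lt.ne' (Nat.dvd_one.1 (h1 ▸ Nat.dvd_gcd h3 hq))
    · have h3 : p ∣ a + d := by simpa using hi
      exact hp.one_lt.ne' (Nat.dvd_one.1 (h2 ▸ Nat.dvd_gcd h3 hq))
  · have hq' : ¬ (p : ℤ) ∣ (q : ℤ) := fun h => hq (Int.natCast_dvd_natCast.1 h)
    -- a target residue
    have key : ∃ x : ℤ, ¬ (p : ℤ) ∣ x ∧ ¬ (p : ℤ) ∣ x + d := by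
      by_cases h3 : (p : ℤ) ∣ 1 + d
      · refine ⟨-1, by rwa [dvd_neg], fun h4 => ?_⟩
        have h5 : (p : ℤ) ∣ 2 := by
          have := dvd_sub h3 h4
          have e : (1 : ℤ) + d - (-1 + d) = 2 := by ring
          rwa [e] at this
        have h6 : p ∣ 2 := by exact_mod_cast h5
        have h7 : p = 2 := (Nat.prime_dvd_prime_iff_eq hp Nat.prime_two).1 h6
        subst h7
        obtain ⟨u, hu⟩ := hd
        have h8 : (2 : ℕ) ∣ 1 + d := by exact_mod_cast h3
        omega
      · exact ⟨1, hp1, h3⟩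
    obtain ⟨x, hx1, hx2⟩ := key
    obtain ⟨m, -, hm⟩ := exists_root hp hq' ((a : ℤ) - x)
    refine ⟨m, fun i hi => ?_⟩
    fin_cases i
    · have h3 : (p : ℤ) ∣ (q : ℤ) * m + a := hi
      have h4 := dvd_sub h3 hm
      have e : (q : ℤ) * m + a - (q * m + (a - x)) = x := by ring
      rw [e] at h4
      exact hx1 h4
    · have h3 : (p : ℤ) ∣ (q : ℤ) * m + ((a + d : ℕ) : ℤ) := hi
      have h4 := dvd_sub h3 hm
      have e : (q : ℤ) * m + ((a + d : ℕ) : ℤ) - (q * m + (a - x)) = x + d := by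
        push_cast
        ring
      rw [e] at h4
      exact hx2 h4

/-- **Pairs `p`, `p + d` in all residue classes, uniformly, in sparse sets given by digits.** -/
theorem result (E : ℕ) :
    ∃ δ : ℝ, 0 < δ ∧ ∃ r₀ : ℕ, 2 ≤ r₀ ∧ ∀ r : ℕ, r₀ ≤ r → ∀ b : ℕ, 2 ≤ b →
      ∃ κ C : ℝ, 0 < κ ∧ 0 < C ∧ ∀ᶠ K : ℕ in atTop, ∀ d a q M : ℕ, Even d → 1 ≤ d → 1 ≤ q →
        a.Coprime q → (a + d).Coprime q → d ≤ b ^ (E * K) → a ≤ b ^ (E * K) → q ≤ b ^ (E * K) →
        M ≤ b ^ (E * K) →
        ∀ A : ℕ → Finset ℕ, (∀ i < K, A i ⊆ range b) →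
        (b : ℝ) ^ K ≤ Real.exp (δ * K) * choices K A →
        0 < sing d a q ∧
        ((∃ e ∈ A 0, (a + q * (M + e)).Coprime b ∧ (a + q * (M + e) + d).Coprime b) →
          (∃ e ∈ A (K - 1), e ≠ 0) →
          κ * sing d a q * choices K A / (K : ℝ) ^ 2 ≤ count b K M A {m | b ^ (K - 1) ≤ m ∧
            AlmostPrime r (b ^ K) (a + q * m) ∧ AlmostPrime r (b ^ K) (a + q * m + d)}) ∧
        (count b K M A {m | (a + q * m).Prime ∧ (a + q * m + d).Prime} : ℝ) ≤
          C * sing d a q * choices K A / (K : ℝ) ^ 2 := by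
  obtain ⟨δ, hδ, r₀, hr₀, h⟩ := lf 2 (E + 1) (by norm_num)
  refine ⟨δ, hδ, r₀, hr₀, fun r hr b hb => ?_⟩
  obtain ⟨κ, C, hκ, hC, h1⟩ := h r hr b hb
  refine ⟨κ, C, hκ, hC, ?_⟩
  filter_upwards [h1, eventually_ge_atTop 1] with K hK hK1 d a q M hd hd1 hq haq hadq hdE haE hqE hM
    A hA hprod
  have hbK : 2 ≤ b ^ K := hb.trans (Nat.le_self_pow (by omega) b)
  have hbb : b ^ (E * K) * 2 ≤ b ^ ((E + 1) * K) := by
    have e : b ^ ((E + 1) * K) = b ^ (E * K) * b ^ K := by
      rw [← pow_add]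
      congr 1
      ring
    rw [e]
    exact Nat.mul_le_mul_left _ hbK
  have ha0 : ∀ j, al q j ≠ 0 := fun j => by
    unfold al
    exact_mod_cast (by omega : q ≠ 0)
  have hac : ∀ i j, i ≠ j → al q i * be d a j ≠ al q j * be d a i := by
    intro i j hij h
    unfold al at h
    have hq0 : (q : ℤ) ≠ 0 := by exact_mod_cast (by omega : q ≠ 0)
    have h5 := mul_left_cancel₀ hq0 h
    have e0 : be d a 0 = (a : ℤ) := rfl
    have e1 : be d a 1 = ((a + d : ℕ) : ℤ) := rfl
    have hcase : ∀ i j : Fin 2, i ≠ j → (i = 0 ∧ j = 1) ∨ (i = 1 ∧ j = 0) := by decide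
    rcases hcase i j hij with ⟨rfl, rfl⟩ | ⟨rfl, rfl⟩ <;> rw [e0, e1] at h5 <;> omega
  have hbe : ∀ i, (be d a i).natAbs ≤ b ^ ((E + 1) * K) := by
    intro i
    fin_cases i
    · change (a : ℤ).natAbs ≤ _
      rw [Int.natAbs_natCast]
      omega
    · change ((a + d : ℕ) : ℤ).natAbs ≤ _
      rw [Int.natAbs_natCast]
      omega
  obtain ⟨h2, h3, h4⟩ := hK M (by omega) (al q) (be d a) ha0
    (fun j => by unfold al; rw [Int.natAbs_natCast]; omega) hbe hac (adm hd haq hadq) A hA hprod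
  rw [sing_eq] at h2 h3 h4
  have hv : ∀ (m : ℕ) (i : Fin 2), (al q i * (m : ℤ) + be d a i).natAbs =
      ![a + q * m, a + q * m + d] i := by
    intro m i
    rw [val_eq, Int.natAbs_natCast]
  refine ⟨h2, ?_, ?_⟩
  · rintro ⟨e, he, hc1, hc2⟩ htop
    refine (h3 ⟨e, he, fun j => ?_⟩ htop).trans (Nat.cast_le.2 ?_)
    · rw [hv]
      fin_cases j
      · exact hc1
      · exact hc2
    · refine ND_sub fun n _ hn1 hn2 => ⟨hn1, hn2.1.trans (Nat.le_add_left _ _), ?_, ?_⟩
      · have := hn2.2 0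
        rw [hv] at this
        exact this
      · have := hn2.2 1
        rw [hv] at this
        exact this
  · refine le_trans (Nat.cast_le.2 ?_) h4
    refine ND_sub fun n _ hn1 hn2 => ⟨hn1, fun j => ?_⟩
    have h6 : n ≤ a + q * (M + n) := by nlinarith
    have hlt : ∀ x : ℕ, x.Prime → n ≤ x → n < x ^ 2 := fun x hx h8 => by
      have := hx.two_le
      nlinarith
    rw [hv]
    fin_cases j
    · exact ⟨hn2.1, hlt _ hn2.1 h6⟩
    · exact ⟨hn2.2, hlt _ hn2.2 (h6.trans (Nat.le_add_right _ _))⟩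

end Pool.Agent.Results.MP_92ef0c_nt.RestrictedDigits
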